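import Mathlib
import Pool.Agent.TH107.Root

/-!
# Dimension of the poset of convex subcomplexes of a finite Coxeter complex (MP_70010f_co, Q1)

For every finite Coxeter system `(W, S)`, `S` nonempty, the poset `Y(Σ)` of nonempty convex
subcomplexes of the Coxeter complex `Σ` has dimension `dim Σ + N(Σ)`, where `dim Σ = |S| - 1` and
`N(Σ)` is the number of reflections.

The Coxeter complex is modelled in the standard way: a nonempty simplex is a coset `w W_J` with
`J ≠ S`; `F'` is a face of `F` iff `F ⊆ F'` (as cosets); the chambers are the cosets `{w}`, and `F`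
is a face of the chamber `{w}` iff `w ∈ F`.
-/

set_option autoImplicit false

namespace Pool.Agent.Results.MP_70010f_co.ConvexSubcomplexDim

open Pool.Agent.Helper741 Pool.Agent.TH107

section defs

variable {B W : Type*} [Group W] {M : CoxeterMatrix B} (cs : CoxeterSystem M W)

/-- The standard parabolic subgroup `W_J` generated by `J`. -/
def parabolic (J : Set B) : Subgroup W := Subgroup.closure (cs.simple '' J)

/-- The coset `w W_J`. -/
def coset (w : W) (J : Set B) : Set W := {x | ∃ u ∈ parabolic cs J, x = w * u}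

/-- The nonempty simplices of the Coxeter complex: the cosets `w W_J` with `J ≠ S`. The chambers of
which `F` is a face are the `{w}` with `w ∈ F`. -/
def Simplex : Type _ := {F : Set W // ∃ (w : W) (J : Set B), J ≠ Set.univ ∧ F = coset cs w J}

/-- The closed half (root) of the reflection `t` on the side of the fundamental chamber: all faces
of chambers `{w}` with `ℓ(w) < ℓ(t w)`. -/
def posRoot (t : W) : Set (Simplex cs) := {F | ∃ w ∈ F.1, cs.length w < cs.length (t * w)}

/-- The opposite closed half (root) of the reflection `t`: all faces of chambers `{w}` with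
`ℓ(t w) < ℓ(w)`. -/
def negRoot (t : W) : Set (Simplex cs) := {F | ∃ w ∈ F.1, cs.length (t * w) < cs.length w}

/-- The roots (half-apartments) of the Coxeter complex. -/
def IsRoot (R : Set (Simplex cs)) : Prop :=
  ∃ t, cs.IsReflection t ∧ (R = posRoot cs t ∨ R = negRoot cs t)

/-- A convex subcomplex is an intersection of a set of roots (the empty intersection is the whole
complex). -/
def IsConvex (C : Set (Simplex cs)) : Prop :=
  ∃ A : Set (Set (Simplex cs)), (∀ R ∈ A, IsRoot cs R) ∧ C = ⋂₀ A

/-- The poset of nonempty convex subcomplexes, ordered by inclusion. -/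
abbrev Y : Type _ := {C : Set (Simplex cs) // IsConvex cs C ∧ C.Nonempty}

end defs

section basics

variable {B W : Type*} [Group W] {M : CoxeterMatrix B} {cs : CoxeterSystem M W}

theorem mem_coset_self (w : W) (J : Set B) : w ∈ coset cs w J :=
  ⟨1, Subgroup.one_mem _, (mul_one w).symm⟩

/-- the chamber `{w}` as a simplex -/
def chamber [Nonempty B] (cs : CoxeterSystem M W) (w : W) : Simplex cs :=
  ⟨coset cs w ∅, w, ∅, by
    intro h
    obtain ⟨b⟩ := ‹Nonempty B›
    have : b ∈ (∅ : Set B) := by rw [h]; exact Set.mem_univ b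
    exact this, rfl⟩

theorem mem_chamber [Nonempty B] (w x : W) : x ∈ (chamber cs w).1 ↔ x = w := by
  show x ∈ coset cs w ∅ ↔ _
  unfold coset parabolic
  rw [Set.image_empty, Subgroup.closure_empty]
  constructor
  · rintro ⟨u, hu, rfl⟩
    rw [Subgroup.mem_bot.mp hu, mul_one]
  · rintro rfl
    exact ⟨1, Subgroup.one_mem _, (mul_one x).symm⟩

variable [Fintype B] [DecidableEq B]

theorem lt_iff {t : W} (ht : cs.IsReflection t) (v : W) :
    cs.length v < cs.length (t * v) ↔ 0 ≤ geo cs v⁻¹ (rt cs t) := by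
  rw [← length_lt_iff ht, cs.length_inv v, ← cs.length_inv (t * v), mul_inv_rev, ht.inv]

theorem gt_iff {t : W} (ht : cs.IsReflection t) (v : W) :
    cs.length (t * v) < cs.length v ↔ geo cs v⁻¹ (rt cs t) ≤ 0 := by
  rw [← length_gt_iff ht, cs.length_inv v, ← cs.length_inv (t * v), mul_inv_rev, ht.inv]

/-- elements of `W_J` do not change the coordinates outside of `J` -/
theorem geo_coord {J : Set B} {u : W} (hu : u ∈ parabolic cs J) {s : B} (hs : s ∉ J)
    (x : B → ℝ) : geo cs u x s = x s := by
  unfold parabolic at hu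
  induction hu using Subgroup.closure_induction generalizing x with
  | mem v hv =>
      obtain ⟨j, hj, rfl⟩ := hv
      have hsj : s ≠ j := by rintro rfl; exact hs hj
      rw [geo_simple, sg_apply]
      simp [ee, hsj]
  | one => rw [map_one, Module.End.one_apply]
  | mul a b _ _ iha ihb => rw [map_mul, Module.End.mul_apply, iha, ihb]
  | inv a _ ih => rw [← ih (geo cs a⁻¹ x), geo_apply_inv]

open Classical in
/-- the functional `ω_J`: sum of the coordinates outside of `J` -/
noncomputable def om (J : Set B) : Module.Dual ℝ (B → ℝ) :=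
  ∑ s ∈ Finset.univ.filter (fun s => s ∉ J), LinearMap.proj s

open Classical in
theorem om_apply (J : Set B) (x : B → ℝ) :
    om J x = ∑ s ∈ Finset.univ.filter (fun s => s ∉ J), x s := by
  simp [om]

theorem om_nonneg (J : Set B) {x : B → ℝ} (hx : 0 ≤ x) : 0 ≤ om J x := by
  classical
  rw [om_apply]
  exact Finset.sum_nonneg fun s _ => hx s

theorem om_zero {J : Set B} {x : B → ℝ} (hx : 0 ≤ x) (h : om J x = 0) (s : B) (hs : s ∉ J) :
    x s = 0 := by
  classical
  rw [om_apply, Finset.sum_eq_zero_iff_of_nonneg fun s _ => hx s] at h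
  exact h s (by simp [hs])

theorem om_inv {J : Set B} {u : W} (hu : u ∈ parabolic cs J) (x : B → ℝ) :
    om J (geo cs u x) = om J x := by
  classical
  rw [om_apply, om_apply]
  refine Finset.sum_congr rfl fun s hs => ?_
  exact geo_coord hu (by simpa using hs) x

theorem om_ee {J : Set B} {s : B} (hs : s ∉ J) : om J (ee s) = 1 := by
  classical
  rw [om_apply]
  simp [ee, Pi.single_apply, hs]

/-- a representative of the coset -/
noncomputable def wF (F : Simplex cs) : W := F.2.choose

/-- the type of the coset -/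
noncomputable def JF (F : Simplex cs) : Set B := F.2.choose_spec.choose

theorem JF_ne (F : Simplex cs) : JF F ≠ Set.univ := F.2.choose_spec.choose_spec.1

theorem F_eq (F : Simplex cs) : F.1 = coset cs (wF F) (JF F) := F.2.choose_spec.choose_spec.2

/-- the point of the simplex `F` in the dual of the geometric representation -/
noncomputable def xF (F : Simplex cs) : Module.Dual ℝ (B → ℝ) := om (JF F) ∘ₗ geo cs (wF F)⁻¹

theorem xF_apply (F : Simplex cs) {u : W} (hu : u ∈ F.1) (v : B → ℝ) :
    xF F v = om (JF F) (geo cs u⁻¹ v) := by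
  rw [F_eq] at hu
  obtain ⟨j, hj, rfl⟩ := hu
  rw [mul_inv_rev, map_mul, Module.End.mul_apply, om_inv (Subgroup.inv_mem _ hj)]
  rfl

theorem xF_ne_zero (F : Simplex cs) : xF F ≠ 0 := by
  obtain ⟨s, hs⟩ := (Set.ne_univ_iff_exists_notMem _).mp (JF_ne F)
  intro h
  have h1 : xF F (geo cs (wF F) (ee s)) = 1 := by
    show om (JF F) (geo cs (wF F)⁻¹ (geo cs (wF F) (ee s))) = 1
    rw [geo_inv_apply, om_ee hs]
  rw [h] at h1
  exact zero_ne_one h1

theorem F_nonempty (F : Simplex cs) : F.1.Nonempty := by
  rw [F_eq]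
  exact ⟨_, mem_coset_self _ _⟩

theorem mul_mem_F (F : Simplex cs) {u : W} (hu : u ∈ F.1) {s : B} (hs : s ∈ JF F) :
    u * cs.simple s ∈ F.1 := by
  rw [F_eq] at hu ⊢
  obtain ⟨j, hj, rfl⟩ := hu
  exact ⟨j * cs.simple s, Subgroup.mul_mem _ hj
    (Subgroup.subset_closure (Set.mem_image_of_mem _ hs)), by rw [mul_assoc]⟩

theorem expand (x : B → ℝ) : x = ∑ s, x s • (ee s : B → ℝ) := by
  ext i
  simp [ee, Finset.sum_apply, Pi.single_apply]

theorem geo_expand (u : W) (x : B → ℝ) : geo cs u x = ∑ s, x s • geo cs u (ee s) := by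
  conv_lhs => rw [expand x]
  rw [map_sum]
  exact Finset.sum_congr rfl fun s _ => by rw [map_smul]

variable [Finite W]

theorem mem_posRoot_iff {t : W} (ht : cs.IsReflection t) (F : Simplex cs) :
    F ∈ posRoot cs t ↔ 0 ≤ xF F (rt cs t) := by
  constructor
  · rintro ⟨u, hu, h⟩
    rw [xF_apply F hu]
    exact om_nonneg _ ((lt_iff ht u).mp h)
  · intro h
    obtain ⟨u, hu, hmin⟩ := Set.exists_min_image F.1 cs.length (Set.toFinite _) (F_nonempty F)
    refine ⟨u, hu, (lt_iff ht u).mpr ?_⟩
    rcases ((rt_isRt ht).geo u⁻¹).cases with h1 | h1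
    · exact h1
    exfalso
    rw [xF_apply F hu] at h
    set x := geo cs u⁻¹ (rt cs t) with hx
    have h2 : om (JF F) (-x) = 0 := by
      apply le_antisymm
      · rw [map_neg]; linarith
      · exact om_nonneg _ (neg_nonneg.mpr h1)
    have h3 : ∀ s, s ∉ JF F → x s = 0 := by
      intro s hs
      have := om_zero (neg_nonneg.mpr h1) h2 s hs
      simpa using this
    have h4 : rt cs t ≤ 0 := by
      have e1 : rt cs t = geo cs u x := by rw [hx, geo_apply_inv]
      rw [e1, geo_expand]
      apply Finset.sum_nonpos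
      intro s _
      by_cases hs : s ∈ JF F
      · have e2 : 0 ≤ geo cs u (ee s) := by
          rw [geo_nonneg_iff]
          have := hmin _ (mul_mem_F F hu hs)
          rcases cs.length_mul_simple u s with h5 | h5 <;> omega
        intro b
        have e3 := e2 b
        have e4 : x s ≤ 0 := h1 s
        simp only [Pi.smul_apply, smul_eq_mul, Pi.zero_apply] at e3 ⊢
        exact mul_nonpos_of_nonpos_of_nonneg e4 e3
      · rw [h3 s hs, zero_smul]
    exact (rt_isRt ht).not_both (rt_pos ht) h4

theorem mem_negRoot_iff {t : W} (ht : cs.IsReflection t) (F : Simplex cs) :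
    F ∈ negRoot cs t ↔ xF F (rt cs t) ≤ 0 := by
  constructor
  · rintro ⟨u, hu, h⟩
    rw [xF_apply F hu]
    have h1 := om_nonneg (JF F) (neg_nonneg.mpr ((gt_iff ht u).mp h))
    rw [map_neg] at h1
    linarith
  · intro h
    obtain ⟨u, hu, hmax⟩ := Set.exists_max_image F.1 cs.length (Set.toFinite _) (F_nonempty F)
    refine ⟨u, hu, (gt_iff ht u).mpr ?_⟩
    rcases ((rt_isRt ht).geo u⁻¹).cases with h1 | h1
    swap
    · exact h1
    exfalso
    rw [xF_apply F hu] at h
    set x := geo cs u⁻¹ (rt cs t) with hx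
    have h2 : om (JF F) x = 0 := le_antisymm h (om_nonneg _ h1)
    have h4 : rt cs t ≤ 0 := by
      have e1 : rt cs t = geo cs u x := by rw [hx, geo_apply_inv]
      rw [e1, geo_expand]
      apply Finset.sum_nonpos
      intro s _
      by_cases hs : s ∈ JF F
      · have e2 : geo cs u (ee s) ≤ 0 := by
          rw [geo_nonpos_iff]
          have := hmax _ (mul_mem_F F hu hs)
          rcases cs.length_mul_simple u s with h5 | h5 <;> omega
        intro b
        have e3 := e2 b
        have e4 : 0 ≤ x s := h1 s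
        simp only [Pi.smul_apply, smul_eq_mul, Pi.zero_apply] at e3 ⊢
        exact mul_nonpos_of_nonneg_of_nonpos e4 e3
      · rw [om_zero h1 h2 s hs, zero_smul]
    exact (rt_isRt ht).not_both (rt_pos ht) h4

end basics

section upper

variable {B W : Type*} [Group W] {M : CoxeterMatrix B} {cs : CoxeterSystem M W}
variable [Fintype B] [DecidableEq B]

/-- span of the points of a subcomplex -/
noncomputable def E (C : Set (Simplex cs)) : Submodule ℝ (Module.Dual ℝ (B → ℝ)) :=
  Submodule.span ℝ (xF '' C)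

/-- the wall of `t` in the dual -/
noncomputable def wall (cs : CoxeterSystem M W) (t : W) : Submodule ℝ (Module.Dual ℝ (B → ℝ)) :=
  LinearMap.ker (Module.Dual.eval ℝ (B → ℝ) (rt cs t))

theorem mem_wall (t : W) (x : Module.Dual ℝ (B → ℝ)) : x ∈ wall cs t ↔ x (rt cs t) = 0 := by
  unfold wall
  rw [LinearMap.mem_ker, Module.Dual.eval_apply]

/-- the reflections whose wall crosses the subcomplex -/
def XC (C : Set (Simplex cs)) : Set W :=
  {t | cs.IsReflection t ∧ (∃ F ∈ C, 0 < xF F (rt cs t)) ∧ (∃ F ∈ C, xF F (rt cs t) < 0)}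

/-- the traces of the crossing walls -/
noncomputable def Tr (C : Set (Simplex cs)) : Set (Submodule ℝ (Module.Dual ℝ (B → ℝ))) :=
  (fun t => E C ⊓ wall cs t) '' XC C

/-- the rank function -/
noncomputable def rk (C : Set (Simplex cs)) : ℕ := Module.finrank ℝ (E C) + (Tr C).ncard

theorem XC_mono {C C' : Set (Simplex cs)} (h : C' ⊆ C) : XC C' ⊆ XC C := by
  rintro t ⟨h1, ⟨F, hF, h2⟩, ⟨G, hG, h3⟩⟩
  exact ⟨h1, ⟨F, h hF, h2⟩, ⟨G, h hG, h3⟩⟩

theorem E_mono {C C' : Set (Simplex cs)} (h : C' ⊆ C) : E C' ≤ E C :=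
  Submodule.span_mono (Set.image_mono h)

theorem rk_pos {C : Set (Simplex cs)} (h : C.Nonempty) : 1 ≤ rk C := by
  obtain ⟨F, hF⟩ := h
  have h1 : E C ≠ ⊥ := by
    intro h2
    have h3 : xF F ∈ E C := Submodule.subset_span ⟨F, hF, rfl⟩
    rw [h2, Submodule.mem_bot] at h3
    exact xF_ne_zero F h3
  have h2 : 0 < Module.finrank ℝ (E C) := by
    have h3 : Nontrivial (E C) := (Submodule.nontrivial_iff_ne_bot (p := E C)).mpr h1
    exact Module.finrank_pos (R := ℝ) (M := E C)
  unfold rk
  omega

variable [Finite W]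

theorem Tr_finite (C : Set (Simplex cs)) : (Tr C).Finite := (Set.toFinite _).image _

theorem rk_le (C : Set (Simplex cs)) :
    rk C ≤ Fintype.card B + Nat.card {t : W // cs.IsReflection t} := by
  have h1 : Module.finrank ℝ (E C) ≤ Fintype.card B := by
    refine (Submodule.finrank_le _).trans ?_
    rw [Subspace.dual_finrank_eq, Module.finrank_fintype_fun_eq_card]
  have h2 : (Tr C).ncard ≤ Nat.card {t : W // cs.IsReflection t} := by
    refine (Set.ncard_image_le (Set.toFinite _)).trans ?_
    have h3 : XC C ⊆ {t : W | cs.IsReflection t} := fun t ht => ht.1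
    exact Set.ncard_le_ncard h3 (Set.toFinite _)
  unfold rk
  omega

theorem rk_lt {C C' : Set (Simplex cs)} (hC' : IsConvex cs C') (h : C' ⊂ C) : rk C' < rk C := by
  have hsub : C' ⊆ C := h.1
  by_cases hE : E C' = E C
  · obtain ⟨A, hA, rfl⟩ := hC'
    have h1 : ∃ R ∈ A, ∃ F ∈ C, F ∉ R := by
      by_contra hcon
      push Not at hcon
      exact h.2 fun F hF => Set.mem_sInter.mpr fun R hR => hcon R hR F hF
    obtain ⟨R, hR, F, hFC, hFR⟩ := h1
    obtain ⟨t, ht, hRt⟩ := hA R hR
    -- a sign
    obtain ⟨ε, hε, hF1, hG1⟩ : ∃ ε : ℝ, ε ≠ 0 ∧ ε * xF F (rt cs t) < 0 ∧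
        ∀ G ∈ ⋂₀ A, 0 ≤ ε * xF G (rt cs t) := by
      rcases hRt with hRt | hRt
      · refine ⟨1, one_ne_zero, ?_, ?_⟩
        · rw [hRt, mem_posRoot_iff ht] at hFR
          linarith
        · intro G hG
          have := hG R hR
          rw [hRt, mem_posRoot_iff ht] at this
          linarith
      · refine ⟨-1, by norm_num, ?_, ?_⟩
        · rw [hRt, mem_negRoot_iff ht] at hFR
          linarith
        · intro G hG
          have := hG R hR
          rw [hRt, mem_negRoot_iff ht] at this
          linarith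
    have hF2 : xF F (rt cs t) ≠ 0 := by
      intro h2
      rw [h2, mul_zero] at hF1
      exact lt_irrefl _ hF1
    -- some simplex of `C'` is not on the wall
    obtain ⟨F', hF', hF'0⟩ : ∃ F' ∈ ⋂₀ A, xF F' (rt cs t) ≠ 0 := by
      by_contra hcon
      push Not at hcon
      have h2 : E (⋂₀ A) ≤ wall cs t := by
        unfold E
        rw [Submodule.span_le]
        rintro _ ⟨G, hG, rfl⟩
        exact (mem_wall t _).mpr (hcon G hG)
      have h3 : xF F ∈ E C := Submodule.subset_span ⟨F, hFC, rfl⟩
      rw [← hE] at h3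
      exact hF2 ((mem_wall t _).mp (h2 h3))
    have hF'1 : 0 < ε * xF F' (rt cs t) :=
      lt_of_le_of_ne (hG1 F' hF') (Ne.symm (mul_ne_zero hε hF'0))
    have htX : t ∈ XC C := by
      refine ⟨ht, ?_⟩
      rcases lt_or_gt_of_ne hε with h2 | h2
      · refine ⟨⟨F, hFC, by nlinarith⟩, ⟨F', hsub hF', by nlinarith⟩⟩
      · refine ⟨⟨F', hsub hF', by nlinarith⟩, ⟨F, hFC, by nlinarith⟩⟩
    have hTsub : Tr (⋂₀ A) ⊆ Tr C := by
      rintro _ ⟨u, hu, rfl⟩
      refine ⟨u, XC_mono hsub hu, ?_⟩
      show E C ⊓ wall cs u = E (⋂₀ A) ⊓ wall cs u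
      rw [hE]
    have hnot : E C ⊓ wall cs t ∉ Tr (⋂₀ A) := by
      rintro ⟨u, hu, hueq⟩
      have hueq' : E C ⊓ wall cs u = E C ⊓ wall cs t := by
        rw [← hE]
        rw [← hE] at hueq
        exact hueq
      have hF'E : xF F' ∈ E C := Submodule.subset_span ⟨F', hsub hF', rfl⟩
      -- proportionality
      have hprop : ∀ y ∈ E C, y (rt cs u) =
          y (rt cs t) / xF F' (rt cs t) * xF F' (rt cs u) := by
        intro y hy
        have h2 : y - (y (rt cs t) / xF F' (rt cs t)) • xF F' ∈ E C ⊓ wall cs t := by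
          refine ⟨Submodule.sub_mem _ hy (Submodule.smul_mem _ _ hF'E), ?_⟩
          show _ ∈ wall cs t
          rw [mem_wall, LinearMap.sub_apply, LinearMap.smul_apply, smul_eq_mul,
            div_mul_cancel₀ _ hF'0, sub_self]
        rw [← hueq'] at h2
        have h3 := (mem_wall u _).mp h2.2
        rw [LinearMap.sub_apply, LinearMap.smul_apply, smul_eq_mul] at h3
        linarith
      obtain ⟨-, ⟨G, hG, hG2⟩, ⟨G', hG', hG'2⟩⟩ := hu
      have hGE : xF G ∈ E C := Submodule.subset_span ⟨G, hsub hG, rfl⟩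
      have hG'E : xF G' ∈ E C := Submodule.subset_span ⟨G', hsub hG', rfl⟩
      have e1 := hprop _ hGE
      have e2 := hprop _ hG'E
      have e3 := hG1 G hG
      have e4 := hG1 G' hG'
      -- `q G = x_G(t) / x_F'(t) ≥ 0`
      have e5 : ∀ H : Simplex cs, 0 ≤ ε * xF H (rt cs t) → 0 ≤ xF H (rt cs t) / xF F' (rt cs t) := by
        intro H hH
        have : xF H (rt cs t) / xF F' (rt cs t) =
            (ε * xF H (rt cs t)) / (ε * xF F' (rt cs t)) := by
          rw [mul_div_mul_left _ _ hε]
        rw [this]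
        exact div_nonneg hH hF'1.le
      have e6 := e5 G e3
      have e7 := e5 G' e4
      rw [e1] at hG2
      rw [e2] at hG'2
      have e8 : 0 < xF F' (rt cs u) := by
        by_contra h4
        have := mul_nonpos_of_nonneg_of_nonpos e6 (not_lt.mp h4)
        linarith
      have := mul_nonneg e7 e8.le
      linarith
    have hlt : (Tr (⋂₀ A)).ncard < (Tr C).ncard := by
      apply Set.ncard_lt_ncard _ (Tr_finite _)
      exact ⟨hTsub, fun h2 => hnot (h2 ⟨t, htX, rfl⟩)⟩
    unfold rk
    rw [hE]
    omega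
  · have hElt : E C' < E C := lt_of_le_of_ne (E_mono hsub) hE
    have h1 : Module.finrank ℝ (E C') < Module.finrank ℝ (E C) :=
      Submodule.finrank_lt_finrank_of_lt hElt
    have h2 : (Tr C').ncard ≤ (Tr C).ncard := by
      have h3 : Tr C' = (fun H => H ⊓ E C') '' ((fun t => E C ⊓ wall cs t) '' XC C') := by
        rw [Set.image_image]
        apply Set.image_congr
        intro t _
        show E C' ⊓ wall cs t = E C ⊓ wall cs t ⊓ E C'
        rw [inf_right_comm, inf_eq_right.mpr (E_mono hsub)]
      rw [h3]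
      refine (Set.ncard_image_le (Set.toFinite _)).trans ?_
      exact Set.ncard_le_ncard (Set.image_mono (XC_mono hsub)) (Tr_finite C)
    unfold rk
    omega

theorem krullDim_le : Order.krullDim (Y cs) ≤
    ((Fintype.card B - 1 + Nat.card {t : W // cs.IsReflection t} : ℕ) : WithBot ℕ∞) := by
  have hmono : StrictMono fun C : Y cs => rk C.1 := by
    intro C' C h
    exact rk_lt C'.2.1 h
  refine iSup_le fun p => ?_
  have h1 := LTSeries.head_add_length_le_nat (p.map _ hmono)
  have h2 : 1 ≤ (p.map _ hmono).head := by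
    rw [LTSeries.head_map]
    exact rk_pos p.head.2.2
  have h3 : (p.map _ hmono).last ≤ Fintype.card B + Nat.card {t : W // cs.IsReflection t} := by
    rw [LTSeries.last_map]
    exact rk_le _
  have h4 : (p.map _ hmono).length = p.length := rfl
  have h5 : p.length ≤ Fintype.card B - 1 + Nat.card {t : W // cs.IsReflection t} := by
    omega
  exact_mod_cast h5

end upper

section lower

variable {B W : Type*} [Group W] {M : CoxeterMatrix B} {cs : CoxeterSystem M W}

/-- the smallest length of an element with inversion `t` -/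
noncomputable def mlen (cs : CoxeterSystem M W) (t : W) : ℕ :=
  sInf {k | ∃ w, cs.length w = k ∧ cs.length (t * w) < cs.length w}

theorem mlen_le {t w : W} (h : cs.length (t * w) < cs.length w) : mlen cs t ≤ cs.length w :=
  Nat.sInf_le ⟨w, rfl, h⟩

theorem exists_mlen {t : W} (ht : cs.IsReflection t) :
    ∃ w, cs.length w = mlen cs t ∧ cs.length (t * w) < cs.length w := by
  have hne : {k | ∃ w, cs.length w = k ∧ cs.length (t * w) < cs.length w}.Nonempty := by
    refine ⟨cs.length t, t, rfl, ?_⟩
    rw [ht.mul_self, cs.length_one]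
    have := ht.odd_length
    exact this.pos
  exact Nat.sInf_mem hne

/-- the set of simplices in all positive roots of `A` is convex -/
theorem convex_A (A : Set W) (hA : ∀ t ∈ A, cs.IsReflection t) :
    IsConvex cs {F | ∀ t ∈ A, F ∈ posRoot cs t} := by
  refine ⟨posRoot cs '' A, ?_, ?_⟩
  · rintro _ ⟨t, ht, rfl⟩
    exact ⟨t, hA t ht, Or.inl rfl⟩
  · ext F
    simp

/-- the convex hull of the simplex `W_J` -/
def DD (cs : CoxeterSystem M W) (J : Set B) : Set (Simplex cs) :=
  {F | ∀ t, cs.IsReflection t →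
    ((∃ w ∈ coset cs 1 J, cs.length w < cs.length (t * w)) → F ∈ posRoot cs t) ∧
    ((∃ w ∈ coset cs 1 J, cs.length (t * w) < cs.length w) → F ∈ negRoot cs t)}

theorem convex_D (J : Set B) : IsConvex cs (DD cs J) := by
  refine ⟨{R | ∃ t, cs.IsReflection t ∧
    (((∃ w ∈ coset cs 1 J, cs.length w < cs.length (t * w)) ∧ R = posRoot cs t) ∨
    ((∃ w ∈ coset cs 1 J, cs.length (t * w) < cs.length w) ∧ R = negRoot cs t))}, ?_, ?_⟩
  · rintro R ⟨t, ht, h | h⟩
    · exact ⟨t, ht, Or.inl h.2⟩
    · exact ⟨t, ht, Or.inr h.2⟩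
  · ext F
    rw [Set.mem_sInter]
    constructor
    · rintro h R ⟨t, ht, ⟨h1, rfl⟩ | ⟨h1, rfl⟩⟩
      · exact (h t ht).1 h1
      · exact (h t ht).2 h1
    · intro h t ht
      exact ⟨fun h1 => h _ ⟨t, ht, Or.inl ⟨h1, rfl⟩⟩, fun h1 => h _ ⟨t, ht, Or.inr ⟨h1, rfl⟩⟩⟩

/-- the face `W_J` of the fundamental chamber -/
def sJ (cs : CoxeterSystem M W) (J : Set B) (hJ : J ≠ Set.univ) : Simplex cs :=
  ⟨coset cs 1 J, 1, J, hJ, rfl⟩

theorem sJ_mem (J : Set B) (hJ : J ≠ Set.univ) : sJ cs J hJ ∈ DD cs J :=
  fun _ _ => ⟨fun h => h, fun h => h⟩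

theorem coset_one_mono {J J' : Set B} (h : J ⊆ J') : coset cs 1 J ⊆ coset cs 1 J' := by
  rintro _ ⟨u, hu, rfl⟩
  exact ⟨u, Subgroup.closure_mono (Set.image_mono h) hu, rfl⟩

theorem D_anti {J J' : Set B} (h : J ⊆ J') : DD cs J' ⊆ DD cs J := by
  intro F hF t ht
  refine ⟨fun ⟨w, hw, h1⟩ => (hF t ht).1 ⟨w, coset_one_mono h hw, h1⟩,
    fun ⟨w, hw, h1⟩ => (hF t ht).2 ⟨w, coset_one_mono h hw, h1⟩⟩

theorem D_empty : DD cs ∅ = {F | ∀ t, cs.IsReflection t → F ∈ posRoot cs t} := by
  have h1 : ∀ w, w ∈ coset cs 1 (∅ : Set B) ↔ w = 1 := by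
    intro w
    unfold coset parabolic
    rw [Set.image_empty, Subgroup.closure_empty]
    constructor
    · rintro ⟨u, hu, rfl⟩
      rw [Subgroup.mem_bot.mp hu, mul_one]
    · rintro rfl
      exact ⟨1, Subgroup.one_mem _, (mul_one 1).symm⟩
  ext F
  constructor
  · intro h t ht
    refine (h t ht).1 ⟨1, (h1 1).mpr rfl, ?_⟩
    rw [mul_one, cs.length_one]
    exact ht.odd_length.pos
  · intro h t ht
    refine ⟨fun _ => h t ht, ?_⟩
    rintro ⟨w, hw, h2⟩
    rw [(h1 w).mp hw, cs.length_one] at h2
    omega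

variable [Fintype B] [DecidableEq B]

theorem key {t : W} (ht : cs.IsReflection t) : ∃ w, cs.length (t * w) < cs.length w ∧
    ∀ t', cs.IsReflection t' → t' ≠ t → cs.length (t' * w) < cs.length w →
      mlen cs t' < mlen cs t := by
  obtain ⟨w, hw, htw⟩ := exists_mlen ht
  refine ⟨w, htw, fun t' ht' hne h' => ?_⟩
  have hw1 : w ≠ 1 := by
    rintro rfl
    rw [cs.length_one] at htw
    omega
  obtain ⟨i, hi⟩ := cs.exists_rightDescent_of_ne_one hw1
  have hi' : cs.length (w * cs.simple i) < cs.length w := hi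
  set u := w * cs.simple i with hu
  have hroot : ∀ t'' : W, cs.IsReflection t'' → cs.length (t'' * w) < cs.length w →
      ¬ cs.length (t'' * u) < cs.length u → geo cs u⁻¹ (rt cs t'') = ee i := by
    intro t'' ht'' h1 h2
    rw [gt_iff ht''] at h1 h2
    have h3 := (((rt_isRt ht'').geo u⁻¹).not_nonpos).mp h2
    refine PR.eq_ee (cs := cs) ⟨(rt_isRt ht'').geo u⁻¹, h3⟩ ?_
    have h4 : geo cs (cs.simple i) (geo cs u⁻¹ (rt cs t'')) = geo cs w⁻¹ (rt cs t'') := by
      rw [← Module.End.mul_apply, ← map_mul, hu, mul_inv_rev, cs.inv_simple,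
        cs.simple_mul_simple_cancel_left]
    rw [h4]
    exact h1
  have h1 : ¬ cs.length (t * u) < cs.length u := by
    intro h2
    have := mlen_le h2
    omega
  by_cases h2 : cs.length (t' * u) < cs.length u
  · have := mlen_le h2
    omega
  · exfalso
    have e1 := hroot t ht htw h1
    have e2 := hroot t' ht' h' h2
    have e3 : rt cs t' = rt cs t := geo_injective_apply cs u⁻¹ (e2.trans e1.symm)
    exact hne (rt_inj ht' ht e3)

theorem D_ssubset {J : Set B} (hJ : J ≠ Set.univ) {s : B} (hs : s ∉ J) :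
    DD cs (insert s J) ⊂ DD cs J := by
  refine ⟨D_anti (Set.subset_insert _ _), fun h => ?_⟩
  have h1 := h (sJ_mem (cs := cs) J hJ)
  have hsr : cs.IsReflection (cs.simple s) := cs.isReflection_simple s
  have h2 : sJ cs J hJ ∈ negRoot cs (cs.simple s) := by
    apply (h1 _ hsr).2
    refine ⟨cs.simple s, ⟨cs.simple s, Subgroup.subset_closure
      (Set.mem_image_of_mem _ (Set.mem_insert _ _)), (one_mul _).symm⟩, ?_⟩
    rw [cs.simple_mul_simple_self, cs.length_one, cs.length_simple]
    exact Nat.one_pos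
  obtain ⟨w, ⟨u, hu, rfl⟩, h3⟩ := h2
  rw [one_mul, gt_iff hsr, rt_simple] at h3
  have h4 := geo_coord (Subgroup.inv_mem _ hu) hs (ee s)
  have h5 : geo cs u⁻¹ (ee s) s ≤ 0 := h3 s
  rw [h4] at h5
  simp [ee] at h5
  linarith

variable [Finite W] [Nonempty B]

theorem chain1 (k : ℕ) (hk : k ≤ Nat.card {t : W // cs.IsReflection t}) :
    ∃ A : Finset W, A.card = k ∧ (∀ t ∈ A, cs.IsReflection t) ∧
      (∀ t ∈ A, ∀ u, cs.IsReflection u → u ∉ A → mlen cs u ≤ mlen cs t) ∧
      ∃ p : LTSeries (Y cs), p.length = k ∧ p.head.1 = {F | ∀ t ∈ A, F ∈ posRoot cs t} := by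
  classical
  have := Fintype.ofFinite W
  induction k with
  | zero =>
      refine ⟨∅, rfl, by simp, by simp, RelSeries.singleton _ ⟨{F | ∀ t ∈ (∅ : Finset W),
        F ∈ posRoot cs t}, ?_, ?_⟩, rfl, rfl⟩
      · exact convex_A (cs := cs) (↑(∅ : Finset W)) (by simp)
      · exact ⟨chamber cs 1, by simp⟩
  | succ k ih =>
      obtain ⟨A, hAc, hAr, hAm, p, hpl, hph⟩ := ih (by omega)
      set R : Finset W := Finset.univ.filter (fun t => cs.IsReflection t) with hR
      have hRc : R.card = Nat.card {t : W // cs.IsReflection t} := by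
        rw [Nat.card_eq_fintype_card, Fintype.card_subtype]
      have hne : (R \ A).Nonempty := by
        rw [← Finset.card_pos]
        have h1 := Finset.le_card_sdiff A R
        omega
      obtain ⟨t, htm, htmax⟩ := Finset.exists_max_image (R \ A) (mlen cs) hne
      rw [Finset.mem_sdiff, hR, Finset.mem_filter] at htm
      have ht : cs.IsReflection t := htm.1.2
      have htA : t ∉ A := htm.2
      obtain ⟨w, hw1, hw2⟩ := key ht
      have hcl : ∀ t' ∈ insert t A, cs.IsReflection t' := by
        intro t' ht'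
        rcases Finset.mem_insert.mp ht' with rfl | h
        · exact ht
        · exact hAr t' h
      let C : Y cs := ⟨{F | ∀ t' ∈ insert t A, F ∈ posRoot cs t'},
        convex_A (cs := cs) (↑(insert t A) : Set W) (fun t' ht' => hcl t' (by exact_mod_cast ht')),
        ⟨chamber cs 1, by
          intro t' ht'
          refine ⟨1, (mem_chamber 1 1).mpr rfl, ?_⟩
          rw [mul_one, cs.length_one]
          exact (hcl t' ht').odd_length.pos⟩⟩
      have hlt : C < p.head := by
        show C.1 < p.head.1
        rw [hph]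
        refine ⟨fun F hF t' ht' => hF t' (Finset.mem_insert_of_mem ht'), fun h => ?_⟩
        have h1 : chamber cs w ∈ {F | ∀ t' ∈ A, F ∈ posRoot cs t'} := by
          intro t' ht'
          refine ⟨w, (mem_chamber w w).mpr rfl, ?_⟩
          by_contra hcon
          have h2 : cs.length (t' * w) < cs.length w :=
            lt_of_le_of_ne (not_lt.mp hcon) ((hAr t' ht').length_mul_right_ne w)
          have h3 := hw2 t' (hAr t' ht') (by rintro rfl; exact htA ht') h2
          have h4 := hAm t' ht' t ht htA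
          omega
        obtain ⟨x, hx, h2⟩ := h h1 t (Finset.mem_insert_self _ _)
        rw [(mem_chamber w x).mp hx] at h2
        omega
      refine ⟨insert t A, by rw [Finset.card_insert_of_notMem htA, hAc], hcl, ?_,
        p.cons C hlt, by rw [RelSeries.cons_length, hpl], by rw [RelSeries.head_cons]⟩
      intro t' ht' u hu huA
      have huA' : u ∉ A := fun h => huA (Finset.mem_insert_of_mem h)
      rcases Finset.mem_insert.mp ht' with rfl | h
      · exact htmax u (by rw [Finset.mem_sdiff, hR, Finset.mem_filter]; exact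
          ⟨⟨Finset.mem_univ _, hu⟩, huA'⟩)
      · exact hAm t' h u hu huA'

theorem chain2 (k : ℕ) (hk : k ≤ Fintype.card B - 1) :
    ∃ J : Finset B, J.card = k ∧ ∃ p : LTSeries (Y cs),
      p.length = Nat.card {t : W // cs.IsReflection t} + k ∧ p.head.1 = DD cs (J : Set B) := by
  classical
  have := Fintype.ofFinite W
  have hcard : 0 < Fintype.card B := Fintype.card_pos
  induction k with
  | zero =>
      obtain ⟨A, hAc, hAr, -, p, hpl, hph⟩ := chain1 (cs := cs) _ le_rfl
      refine ⟨∅, rfl, p, hpl, ?_⟩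
      rw [hph, Finset.coe_empty, D_empty]
      have hAll : ∀ t, cs.IsReflection t → t ∈ A := by
        intro t ht
        have h1 : A = Finset.univ.filter (fun t => cs.IsReflection t) := by
          apply Finset.eq_of_subset_of_card_le
          · intro t ht
            rw [Finset.mem_filter]
            exact ⟨Finset.mem_univ _, hAr t ht⟩
          · rw [hAc, Nat.card_eq_fintype_card, Fintype.card_subtype]
        rw [h1, Finset.mem_filter]
        exact ⟨Finset.mem_univ _, ht⟩
      ext F
      exact ⟨fun h t ht => h t (hAll t ht), fun h t ht => h t (hAr t ht)⟩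
  | succ k ih =>
      obtain ⟨J, hJc, p, hpl, hph⟩ := ih (by omega)
      have hJne : J ≠ Finset.univ := by
        intro h
        rw [h, Finset.card_univ] at hJc
        omega
      have hJne' : (J : Set B) ≠ Set.univ := by
        intro h
        exact hJne (by exact_mod_cast h)
      obtain ⟨s, hs⟩ : ∃ s, s ∉ J := by
        by_contra hcon
        push Not at hcon
        exact hJne (Finset.eq_univ_iff_forall.mpr hcon)
      have hcard2 : (insert s J).card = k + 1 := by
        rw [Finset.card_insert_of_notMem hs, hJc]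
      have hne2 : ((insert s J : Finset B) : Set B) ≠ Set.univ := by
        intro h
        have h1 : insert s J = Finset.univ := by exact_mod_cast h
        rw [h1, Finset.card_univ] at hcard2
        omega
      let C : Y cs := ⟨DD cs ((insert s J : Finset B) : Set B), convex_D _,
        ⟨_, sJ_mem _ hne2⟩⟩
      have hlt : C < p.head := by
        show C.1 < p.head.1
        rw [hph]
        show DD cs ((insert s J : Finset B) : Set B) < _
        rw [Finset.coe_insert]
        exact D_ssubset hJne' (by simpa using hs)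
      exact ⟨insert s J, hcard2, p.cons C hlt, by rw [RelSeries.cons_length, hpl]; ring,
        by rw [RelSeries.head_cons]⟩

end lower

/-- **Dimension of the poset of convex subcomplexes.** For every finite Coxeter system `(W, S)` with
`S` nonempty (`S` is indexed by `B`), the poset `Y(Σ)` of nonempty convex subcomplexes of the
Coxeter complex has dimension `(|S| - 1) + N`, where `N` is the number of reflections. -/
theorem result {B W : Type*} [Group W] [Finite W] [Fintype B] [Nonempty B] {M : CoxeterMatrix B}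
    (cs : CoxeterSystem M W) :
    Order.krullDim (Y cs) =
      ((Fintype.card B - 1 + Nat.card {t : W // cs.IsReflection t} : ℕ) : WithBot ℕ∞) := by
  classical
  apply le_antisymm krullDim_le
  obtain ⟨J, -, p, hp, -⟩ := chain2 (cs := cs) (Fintype.card B - 1) le_rfl
  have h1 := Order.LTSeries.length_le_krullDim p
  rw [hp, add_comm] at h1
  exact h1

end Pool.Agent.Results.MP_70010f_co.ConvexSubcomplexDim
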